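import Pool.Agent.Helper64.LN.GoalsB

set_option autoImplicit false

/-!
L4: isotopies act trivially.
-/

open Topology Filter Set Metric UpperHalfPlane
open scoped MatrixGroups
open Pool.Agent.Helper64.LN

namespace Pool.Agent.Helper26.LN

/-- The values of the uniformization. -/
theorem mem_img {X : Type*} [TopologicalSpace X] {B : Set X} {u : ℍ → X} (h : Uni B u) (z : ℍ) :
    u z ∈ (Bᶜ : Set X) := h.range ▸ Set.mem_range_self z

/-- The uniformization as a covering of its image. -/
theorem cov_of {X : Type*} [TopologicalSpace X] {B : Set X} {u : ℍ → X} (h : Uni B u) :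
    IsCoveringMap (fun z : ℍ => (⟨u z, mem_img h z⟩ : (Bᶜ : Set X))) := by
  have h1 := h.cov.isCoveringMap_restrictPreimage
  have h2 : u ⁻¹' Bᶜ = Set.univ := Set.eq_univ_of_forall fun z => mem_img h z
  exact h1.comp_homeomorph ((Homeomorph.setCongr h2).trans (Homeomorph.Set.univ ℍ)).symm

/-- Equality of lifts. -/
theorem lift_eq {X : Type*} [TopologicalSpace X] {B : Set X} {u : ℍ → X} (h : Uni B u)
    {A : Type*} [TopologicalSpace A] [PreconnectedSpace A]
    {a b : A → ℍ} (ha : Continuous a) (hb : Continuous b)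
    (hab : ∀ t, u (a t) = u (b t)) (t0 : A) (h0 : a t0 = b t0) : a = b := by
  refine (cov_of h).eq_of_comp_eq ha hb ?_ t0 h0
  funext t
  exact Subtype.ext (hab t)

/-- **L4.** Isotopies act trivially. -/
theorem goalL4.{v} (hL1 : GoalL1.{v}) : GoalL4.{v} := by
  intro X _ _ p P u hU f hf H H0 H1 HB
  have huc : Continuous u := continuous_subtype_val.comp (cov_of hU).continuous
  have hmem : ∀ t z, H (t, u z) ∈ ((insert p P)ᶜ : Set X) := fun t z h' =>
    mem_img hU z ((HB t _).1 h')
  have hKc : Continuous fun x : unitInterval × ℍ =>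
      (⟨H (x.1, u x.2), hmem _ _⟩ : ((insert p P)ᶜ : Set X)) :=
    Continuous.subtype_mk (H.continuous.comp
      (continuous_fst.prodMk (huc.comp continuous_snd))) _
  let K : C(unitInterval × ℍ, ((insert p P)ᶜ : Set X)) := ⟨_, hKc⟩
  have hK0 : ∀ z, K (0, z) = (fun z : ℍ => (⟨u z, mem_img hU z⟩ : ((insert p P)ᶜ : Set X)))
      ((ContinuousMap.id ℍ) z) := fun z => Subtype.ext (H0 _)
  obtain ⟨L, hL, hL0⟩ : ∃ L : C(unitInterval × ℍ, ℍ), (∀ t z, u (L (t, z)) = H (t, u z)) ∧
      ∀ z, L (0, z) = z := by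
    refine ⟨(cov_of hU).liftHomotopy K (ContinuousMap.id ℍ) hK0, fun t z => ?_, fun z =>
      (cov_of hU).liftHomotopy_zero K (ContinuousMap.id ℍ) hK0 z⟩
    have h := congr_fun ((cov_of hU).liftHomotopy_lifts K (ContinuousMap.id ℍ) hK0) (t, z)
    exact congrArg Subtype.val h
  have hLc : ∀ z, Continuous fun t => L (t, z) := fun z =>
    L.continuous.comp (continuous_id.prodMk continuous_const)
  have hLγ : ∀ γ ∈ Pool.Agent.Helper64.PQ.deckG u, ∀ t z, L (t, γ • z) = γ • L (t, z) := by
    intro γ hγ t z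
    have h := lift_eq hU (a := fun t => L (t, γ • z)) (b := fun t => γ • L (t, z))
      (hLc _) ((hLc z).const_smul γ) (fun t => by
        have e1 : u (γ • L (t, z)) = u (L (t, z)) := hγ _
        have e2 : u (γ • z) = u z := hγ _
        rw [e1, hL, hL, e2]) 0 (by
        rw [hL0, hL0])
    exact congrFun h t
  have hGc : Continuous fun z => L (1, z) :=
    L.continuous.comp (continuous_const.prodMk continuous_id)
  have hG : ∀ v, u (L (1, v)) = f (u v) := fun v => (hL 1 v).trans (H1 _)
  obtain ⟨F, hF, hFi⟩ := hL1 X p P u hU f hf UpperHalfPlane.I (L (1, UpperHalfPlane.I)) (hG _)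
  have hFG : (fun z => F z) = fun z => L (1, z) :=
    lift_eq hU F.continuous hGc (fun z => (hF z).trans (hG z).symm) UpperHalfPlane.I hFi
  refine ⟨F, hF, fun g hg => ?_⟩
  obtain ⟨γ, hγ, rfl⟩ := hg
  ext1 z
  change F (γ • z) = γ • F z
  rw [congrFun hFG (γ • z), congrFun hFG z]
  exact hLγ γ hγ 1 z

end Pool.Agent.Helper26.LN
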